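import Pool.Agent.U14.UF.Bas

set_option autoImplicit false

/-!
# Project UF, package REC: reciprocity from Milgram's formula
-/

namespace Pool.Agent.U49.UF.REC

open Pool.Agent.U14.UF Pool.Agent.U14.UF.R4 Finset

/-! ### the exponential -/

/-- `exp(2 π i x)` -/
noncomputable def e (x : ℝ) : ℂ := Complex.exp (2 * Real.pi * Complex.I * (x : ℂ))

theorem e_add (x y : ℝ) : e (x + y) = e x * e y := by
  unfold e
  rw [← Complex.exp_add]
  congr 1
  push_cast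
  ring

theorem e_int (n : ℤ) : e n = 1 := by
  unfold e
  rw [Complex.exp_eq_one_iff]
  exact ⟨n, by push_cast; ring⟩

theorem e_neg (x : ℝ) : e (-x) = (starRingEnd ℂ) (e x) := by
  unfold e
  rw [← Complex.exp_conj]
  congr 1
  simp only [map_mul, Complex.conj_ofReal, Complex.conj_I, map_ofNat]
  push_cast
  ring

theorem e_one_iff (x : ℝ) : e x = 1 ↔ ∃ n : ℤ, x = n := by
  unfold e
  rw [Complex.exp_eq_one_iff]
  have hpi : (2 * Real.pi * Complex.I : ℂ) ≠ 0 := by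
    have := Real.pi_ne_zero
    simp [this]
  constructor
  · rintro ⟨n, hn⟩
    refine ⟨n, ?_⟩
    have h1 : (2 * Real.pi * Complex.I : ℂ) * (x : ℂ) = (2 * Real.pi * Complex.I : ℂ) * (n : ℂ) := by
      rw [hn]; ring
    have h2 := mul_left_cancel₀ hpi h1
    exact_mod_cast h2
  · rintro ⟨n, hn⟩
    exact ⟨n, by rw [hn]; push_cast; ring⟩

/-! ### conjugates and norm -/

theorem cj1_mul (x y : R4) : cj1 (x * y) = cj1 x * cj1 y := by
  ext <;> simp only [cj1, mul_a, mul_b, mul_c, mul_d] <;> ring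

theorem cj2_mul (x y : R4) : cj2 (x * y) = cj2 x * cj2 y := by
  ext <;> simp only [cj2, mul_a, mul_b, mul_c, mul_d] <;> ring

theorem adj_mul (x y : R4) : adj (x * y) = adj x * adj y := by
  unfold adj
  rw [cj1_mul, cj2_mul, cj1_mul]
  ring

theorem int_mul_a (n : ℤ) (x : R4) : ((n : R4) * x).a = n * x.a := by
  rw [mul_a, intCast_a, intCast_b, intCast_c, intCast_d]; ring

theorem nm_mul (x y : R4) : nm (x * y) = nm x * nm y := by
  have h : x * y * adj (x * y) = ((nm x : ℤ) : R4) * ((nm y : ℤ) : R4) := by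
    rw [adj_mul, ← mul_adj, ← mul_adj]; ring
  have h2 : nm (x * y) = (x * y * adj (x * y)).a := rfl
  rw [h2, h, int_mul_a, intCast_a]

theorem ev_cj1 (l t : ℝ) (x : R4) : ev l t (cj1 x) = ev (2 - l) t x := by
  simp only [ev, cj1]; push_cast; ring

theorem ev_cj2 (l t : ℝ) (x : R4) : ev l t (cj2 x) = ev l (1 - t) x := by
  simp only [ev, cj2]; push_cast; ring

theorem nm_pos {x : R4} (h : Pos x) : 0 < nm x := by
  obtain ⟨l, t, hl, ht⟩ := rt_exists
  have hl' : (2 - l) ^ 2 = 2 * (2 - l) + 1 := by linear_combination hl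
  have ht' : (1 - t) ^ 2 = (1 - t) + 1 := by linear_combination ht
  have h1 : ev l t (x * adj x) = (nm x : ℝ) := by
    rw [mul_adj]; simp [ev]
  rw [ev_mul hl ht] at h1
  unfold adj at h1
  rw [ev_mul hl ht, ev_mul hl ht, ev_cj1, ev_cj2, ev_cj1, ev_cj2] at h1
  have p1 := h l t hl ht
  have p2 := h (2 - l) t hl' ht
  have p3 := h l (1 - t) hl ht'
  have p4 := h (2 - l) (1 - t) hl' ht'
  have : (0 : ℝ) < nm x := by rw [← h1]; positivity
  exact_mod_cast this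

theorem nm_ne {x : R4} (h : x ≠ 0) : nm x ≠ 0 := by
  intro h0
  obtain ⟨l, t, hl, ht⟩ := rt_exists
  have hl' : (2 - l) ^ 2 = 2 * (2 - l) + 1 := by linear_combination hl
  have ht' : (1 - t) ^ 2 = (1 - t) + 1 := by linear_combination ht
  have h1 : ev l t (x * adj x) = (nm x : ℝ) := by
    rw [mul_adj]; simp [ev]
  rw [ev_mul hl ht] at h1
  unfold adj at h1
  rw [ev_mul hl ht, ev_mul hl ht, ev_cj1, ev_cj2, ev_cj1, ev_cj2, h0, Int.cast_zero] at h1
  have p1 := ev_ne h hl ht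
  have p2 := ev_ne h hl' ht
  have p3 := ev_ne h hl ht'
  have p4 := ev_ne h hl' ht'
  exact (mul_ne_zero p1 (mul_ne_zero (mul_ne_zero p2 p3) p4)) h1

/-! ### residue systems -/

theorem fin_quot {m : R4} (hm : m ≠ 0) : Finite (R4 ⧸ Ideal.span {m}) := by
  have hN : nm m ≠ 0 := nm_ne hm
  set N : ℕ := (nm m).natAbs with hNd
  have hN0 : 0 < N := Int.natAbs_pos.2 hN
  haveI : NeZero N := ⟨hN0.ne'⟩
  have hdvd : m ∣ ((N : ℤ) : R4) := by
    rcases Int.natAbs_eq (nm m) with h | h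
    · rw [hNd, ← h]; exact ⟨adj m, (mul_adj m).symm⟩
    · have h2 : ((N : ℤ) : R4) = -((nm m : ℤ) : R4) := by
        rw [← Int.cast_neg, h]
        simp [hNd]
      rw [h2, ← mul_adj]
      exact (dvd_mul_right m _).neg_right
  let f : Fin N × Fin N × Fin N × Fin N → R4 ⧸ Ideal.span {m} := fun p =>
    Ideal.Quotient.mk _ ⟨(p.1 : ℕ), (p.2.1 : ℕ), (p.2.2.1 : ℕ), (p.2.2.2 : ℕ)⟩
  refine Finite.of_surjective f ?_
  intro q
  obtain ⟨x, rfl⟩ := Ideal.Quotient.mk_surjective q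
  have hmod : ∀ k : ℤ, ∃ i : Fin N, (N : ℤ) ∣ k - ((i : ℕ) : ℤ) := by
    intro k
    have h1 : 0 ≤ k % N := Int.emod_nonneg _ (by exact_mod_cast hN0.ne')
    have h2 : k % N < N := Int.emod_lt_of_pos _ (by exact_mod_cast hN0)
    refine ⟨⟨(k % N).toNat, by omega⟩, ?_⟩
    have h3 : (((⟨(k % N).toNat, by omega⟩ : Fin N) : ℕ) : ℤ) = k % N := by
      simp only [Int.toNat_of_nonneg h1]
    rw [h3]
    exact Int.dvd_self_sub_emod
  obtain ⟨i1, k1, h1⟩ := hmod x.a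
  obtain ⟨i2, k2, h2⟩ := hmod x.b
  obtain ⟨i3, k3, h3⟩ := hmod x.c
  obtain ⟨i4, k4, h4⟩ := hmod x.d
  refine ⟨(i1, i2, i3, i4), ?_⟩
  refine (Ideal.Quotient.eq.2 ?_).symm
  rw [Ideal.mem_span_singleton]
  have hx : x - (⟨(i1 : ℕ), (i2 : ℕ), (i3 : ℕ), (i4 : ℕ)⟩ : R4) = ((N : ℤ) : R4) * ⟨k1, k2, k3, k4⟩ := by
    ext
    · simp only [sub_a, mul_a, intCast_a, intCast_b, intCast_c, intCast_d]; linarith
    · simp only [sub_b, mul_b, intCast_a, intCast_b, intCast_c, intCast_d]; linarith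
    · simp only [sub_c, mul_c, intCast_a, intCast_b, intCast_c, intCast_d]; linarith
    · simp only [sub_d, mul_d, intCast_a, intCast_b, intCast_c, intCast_d]; linarith
  show m ∣ x - (⟨(i1 : ℕ), (i2 : ℕ), (i3 : ℕ), (i4 : ℕ)⟩ : R4)
  rw [hx]
  exact hdvd.mul_right _

/-- complete residue system -/
def CRS (m : R4) (T : Finset R4) : Prop := ∀ z : R4, ∃! t, t ∈ T ∧ m ∣ z - t

open scoped Classical in
theorem crs_exists {m : R4} (hm : m ≠ 0) : ∃ T : Finset R4, CRS m T := by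
  have := fin_quot hm
  haveI := Fintype.ofFinite (R4 ⧸ Ideal.span {m})
  let s : (R4 ⧸ Ideal.span {m}) → R4 := Function.surjInv Ideal.Quotient.mk_surjective
  have hs : ∀ q, Ideal.Quotient.mk _ (s q) = q :=
    Function.surjInv_eq Ideal.Quotient.mk_surjective
  refine ⟨Finset.univ.image s, ?_⟩
  intro z
  refine ⟨s (Ideal.Quotient.mk _ z), ⟨Finset.mem_image_of_mem _ (Finset.mem_univ _), ?_⟩, ?_⟩
  · rw [← Ideal.mem_span_singleton, ← Ideal.Quotient.eq, hs]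
  · rintro t ⟨ht, hd⟩
    obtain ⟨q, -, rfl⟩ := Finset.mem_image.1 ht
    rw [← Ideal.mem_span_singleton, ← Ideal.Quotient.eq, hs] at hd
    rw [hd]

/-! ### splitting -/

theorem split_uniq {α π k t1 t2 z : R4} (hk : π + 1 = 4 * α * k)
    (h : 2 * (π * α) ∣ z - (π * t1 + 2 * α * t2)) :
    2 * α ∣ -z - t1 ∧ π ∣ 2 * k * z - t2 := by
  obtain ⟨w, hw⟩ := h
  constructor
  · refine ⟨-2 * k * t1 - t2 - π * w, ?_⟩
    linear_combination (-1 : R4) * hw - t1 * hk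
  · refine ⟨2 * k * t1 + t2 + 4 * k * α * w, ?_⟩
    linear_combination (2 * k) * hw - t2 * hk

theorem split_ex {α π k t1 t2 z : R4} (hk : π + 1 = 4 * α * k)
    (h1 : 2 * α ∣ -z - t1) (h2 : π ∣ 2 * k * z - t2) :
    2 * (π * α) ∣ z - (π * t1 + 2 * α * t2) := by
  obtain ⟨u, hu⟩ := h1
  obtain ⟨v, hv⟩ := h2
  refine ⟨u + v, ?_⟩
  linear_combination π * hu + 2 * α * hv + z * hk

theorem key_id {α π k t1 t2 : R4} (hk : π + 1 = 4 * α * k) :
    (π * t1 + 2 * α * t2) ^ 2 * adj (π * α) =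
      ((nm π : ℤ) : R4) * (4 * (((nm α : ℤ) : R4) * (k * t1 ^ 2)) - t1 ^ 2 * adj α) +
      4 * (((nm π : ℤ) : R4) * (((nm α : ℤ) : R4) * (t1 * t2))) +
      4 * (((nm α : ℤ) : R4) * (α * t2 ^ 2 * adj π)) := by
  rw [adj_mul, ← mul_adj, ← mul_adj]
  linear_combination (π * adj π * adj α * t1 ^ 2) * hk

theorem four_mul_a (x : R4) : (4 * x).a = 4 * x.a := by
  rw [mul_a, on_a, on_b, on_c, on_d]; ring

theorem key_real {α π k t1 t2 : R4} (hα : nm α ≠ 0) (hπ : nm π ≠ 0) (hk : π + 1 = 4 * α * k) :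
    ((((π * t1 + 2 * α * t2) ^ 2 * adj (π * α)).a : ℤ) : ℝ) / (4 * ((nm (π * α) : ℤ) : ℝ)) =
      (((t1 * t2).a + (k * t1 ^ 2).a : ℤ) : ℝ) +
      (-((((t1 ^ 2 * adj α).a : ℤ) : ℝ) / (4 * ((nm α : ℤ) : ℝ))) +
      (((α * t2 ^ 2 * adj π).a : ℤ) : ℝ) / ((nm π : ℤ) : ℝ)) := by
  have h1 := congrArg R4.a (key_id (t1 := t1) (t2 := t2) hk)
  rw [add_a, add_a, four_mul_a, four_mul_a, int_mul_a, int_mul_a, int_mul_a, int_mul_a, sub_a,
    four_mul_a, int_mul_a] at h1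
  rw [h1, nm_mul]
  have ha : ((nm α : ℤ) : ℝ) ≠ 0 := by exact_mod_cast hα
  have hp : ((nm π : ℤ) : ℝ) ≠ 0 := by exact_mod_cast hπ
  push_cast
  field_simp
  ring

open scoped Classical in
/-- the Gauss sum of `α` modulo `π` is a positive real -/
theorem gauss_pos (hM : S_MIL) {α π : R4} (hα : Pos α) (hπ : Pos π) (h : 4 * α ∣ π + 1)
    {T2 : Finset R4} (hT2 : CRS π T2) :
    ∃ r : ℝ, 0 < r ∧
      ∑ t ∈ T2, e ((((α * t ^ 2 * adj π).a : ℤ) : ℝ) / ((nm π : ℤ) : ℝ)) = (r : ℂ) := by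
  obtain ⟨k, hk⟩ := h
  have hα0 : α ≠ 0 := pos_ne hα
  have h2α : (2 * α : R4) ≠ 0 := mul_ne_zero (by decide) hα0
  obtain ⟨T1, hT1⟩ := crs_exists h2α
  have na : nm α ≠ 0 := (nm_pos hα).ne'
  have np : nm π ≠ 0 := (nm_pos hπ).ne'
  set g : R4 × R4 → R4 := fun p => π * p.1 + 2 * α * p.2 with hg
  have hT : ∀ z : R4, ∃! t, t ∈ (T1 ×ˢ T2).image g ∧ 2 * (π * α) ∣ z - t := by
    intro z
    obtain ⟨t1, ⟨ht1, hd1⟩, hu1⟩ := hT1 (-z)
    obtain ⟨t2, ⟨ht2, hd2⟩, hu2⟩ := hT2 (2 * k * z)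
    refine ⟨g (t1, t2), ⟨Finset.mem_image_of_mem _ (Finset.mem_product.2 ⟨ht1, ht2⟩),
      split_ex hk hd1 hd2⟩, ?_⟩
    rintro t ⟨ht, hd⟩
    obtain ⟨⟨s1, s2⟩, hs, rfl⟩ := Finset.mem_image.1 ht
    obtain ⟨hs1, hs2⟩ := Finset.mem_product.1 hs
    obtain ⟨d1, d2⟩ := split_uniq hk hd
    have e1 := hu1 s1 ⟨hs1, d1⟩
    have e2 := hu2 s2 ⟨hs2, d2⟩
    rw [e1, e2]
  have hinj : Set.InjOn g (T1 ×ˢ T2 : Finset (R4 × R4)) := by
    rintro ⟨s1, s2⟩ hs ⟨u1, u2⟩ hu hsu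
    obtain ⟨hs1, hs2⟩ := Finset.mem_product.1 (Finset.mem_coe.1 hs)
    obtain ⟨hu1, hu2⟩ := Finset.mem_product.1 (Finset.mem_coe.1 hu)
    have dd1 : 2 * (π * α) ∣ g (s1, s2) - (π * s1 + 2 * α * s2) := by
      have : g (s1, s2) - (π * s1 + 2 * α * s2) = 0 := by simp [hg]
      rw [this]; exact dvd_zero _
    have dd2 : 2 * (π * α) ∣ g (s1, s2) - (π * u1 + 2 * α * u2) := by
      have : g (s1, s2) - (π * u1 + 2 * α * u2) = 0 := by rw [hsu]; simp [hg]
      rw [this]; exact dvd_zero _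
    obtain ⟨a1, a2⟩ := split_uniq hk dd1
    obtain ⟨b1, b2⟩ := split_uniq hk dd2
    obtain ⟨t1, -, hv1⟩ := hT1 (-g (s1, s2))
    obtain ⟨t2, -, hv2⟩ := hT2 (2 * k * g (s1, s2))
    have q1 := hv1 s1 ⟨hs1, a1⟩
    have q2 := hv1 u1 ⟨hu1, b1⟩
    have q3 := hv2 s2 ⟨hs2, a2⟩
    have q4 := hv2 u2 ⟨hu2, b2⟩
    exact Prod.ext (q1.trans q2.symm) (q3.trans q4.symm)
  obtain ⟨r1, hr1, hS1⟩ := hM (π * α) (pos_mul hπ hα) _ hT
  obtain ⟨r2, hr2, hS2⟩ := hM α hα T1 hT1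
  have conv : ∀ (x : ℤ) (n : ℤ), Complex.exp (2 * Real.pi * Complex.I * ((x : ℂ) / (4 * (n : ℂ)))) =
      e ((x : ℝ) / (4 * (n : ℝ))) := by
    intro x n
    unfold e
    congr 1
    push_cast
    ring
  simp only [conv] at hS1 hS2
  rw [Finset.sum_image hinj, Finset.sum_product] at hS1
  have hterm : ∀ t1 t2 : R4, e ((((g (t1, t2)) ^ 2 * adj (π * α)).a : ℝ) / (4 * (nm (π * α) : ℝ))) =
      (starRingEnd ℂ) (e (((t1 ^ 2 * adj α).a : ℝ) / (4 * (nm α : ℝ)))) *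
      e (((α * t2 ^ 2 * adj π).a : ℝ) / (nm π : ℝ)) := by
    intro t1 t2
    have h1 := key_real (t1 := t1) (t2 := t2) na np hk
    show e ((((π * t1 + 2 * α * t2) ^ 2 * adj (π * α)).a : ℝ) / (4 * (nm (π * α) : ℝ))) = _
    rw [h1, e_add, e_int, one_mul, e_add, e_neg]
  simp only [hterm] at hS1
  rw [← Finset.sum_mul_sum, ← map_sum, hS2] at hS1
  refine ⟨r1 / r2, div_pos hr1 hr2, ?_⟩
  have hr2' : (r2 : ℂ) ≠ 0 := by exact_mod_cast hr2.ne'
  simp only [map_neg, Complex.conj_ofReal, neg_mul, neg_inj] at hS1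
  rw [Complex.ofReal_div, eq_div_iff hr2', mul_comm]
  exact hS1

/-! ### the finite field -/

theorem sum_sq {F : Type} [Field F] [Fintype F] [DecidableEq F] (hF : ringChar F ≠ 2) (f : F → ℂ) :
    ∑ z : F, f (z ^ 2) = ∑ w : F, ((quadraticChar F w : ℤ) + 1 : ℂ) * f w := by
  rw [← Finset.sum_fiberwise (Finset.univ : Finset F) (fun z => z ^ 2)]
  refine Finset.sum_congr rfl fun w _ => ?_
  have h1 : ∑ z ∈ Finset.univ.filter (fun z : F => z ^ 2 = w), f (z ^ 2) =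
      ((Finset.univ.filter (fun z : F => z ^ 2 = w)).card : ℂ) * f w := by
    rw [Finset.sum_congr rfl (fun z hz => by rw [(Finset.mem_filter.1 hz).2] :
      ∀ z ∈ Finset.univ.filter (fun z : F => z ^ 2 = w), f (z ^ 2) = f w), Finset.sum_const,
      nsmul_eq_mul]
  rw [h1]
  have h2 := quadraticChar_card_sqrts hF w
  have h3 : ({x : F | x ^ 2 = w}.toFinset) = Finset.univ.filter (fun z : F => z ^ 2 = w) := by
    ext z; simp
  rw [h3] at h2
  have h4 : ((Finset.univ.filter (fun z : F => z ^ 2 = w)).card : ℂ) =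
      ((((Finset.univ.filter (fun z : F => z ^ 2 = w)).card : ℤ)) : ℂ) := by push_cast; rfl
  rw [h4, h2]
  push_cast
  rfl

theorem two_gauss {F : Type} [Field F] [Fintype F] [DecidableEq F] (hF : ringChar F ≠ 2)
    (f : F → ℂ) (c : F) (hc : ¬ IsSquare c) :
    ∑ z : F, f (z ^ 2) + ∑ z : F, f (c * z ^ 2) = 2 * ∑ w : F, f w := by
  have hc0 : c ≠ 0 := by rintro rfl; exact hc ⟨0, by simp⟩
  have hχ : quadraticChar F c = -1 := quadraticChar_neg_one_iff_not_isSquare.2 hc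
  rw [sum_sq hF f, sum_sq hF (fun w => f (c * w))]
  have h1 : ∑ w : F, ((quadraticChar F w : ℤ) + 1 : ℂ) * f (c * w) =
      ∑ w : F, (-(quadraticChar F w : ℤ) + 1 : ℂ) * f w := by
    refine Fintype.sum_equiv (Equiv.mulLeft₀ c hc0) _ _ fun w => ?_
    simp only [Equiv.mulLeft₀_apply, map_mul, hχ]
    push_cast
    ring
  rw [h1, ← Finset.sum_add_distrib, Finset.mul_sum]
  refine Finset.sum_congr rfl fun w _ => ?_
  ring

theorem isSquare_of_gauss {F : Type} [Field F] [Fintype F] [DecidableEq F] (hF : ringChar F ≠ 2)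
    (ψ : F → ℂ) (hadd : ∀ x y, ψ (x + y) = ψ x * ψ y) (hneg : ∀ x, ψ (-x) = (starRingEnd ℂ) (ψ x))
    (hnt : ∃ x, ψ x ≠ 1) (a : F) (r1 r2 : ℝ) (h1 : 0 < r1) (h2 : 0 < r2)
    (hg1 : ∑ z : F, ψ (z ^ 2) = r1) (hga : ∑ z : F, ψ (a * z ^ 2) = r2) : IsSquare (-a) := by
  by_contra hns
  have h := two_gauss hF ψ (-a) hns
  have hz : ∑ w : F, ψ w = 0 := by
    obtain ⟨x, hx⟩ := hnt
    have e1 : ∑ w : F, ψ w = ψ x * ∑ w : F, ψ w := by
      rw [Finset.mul_sum]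
      refine (Fintype.sum_equiv (Equiv.addLeft x) _ _ fun w => ?_).symm
      simp only [Equiv.coe_addLeft]
      rw [hadd]
    have e2 : (ψ x - 1) * ∑ w : F, ψ w = 0 := by linear_combination -e1
    rcases mul_eq_zero.1 e2 with h3 | h3
    · exact absurd (sub_eq_zero.1 h3) hx
    · exact h3
  have hc : ∑ z : F, ψ (-a * z ^ 2) = r2 := by
    have : ∀ z : F, ψ (-a * z ^ 2) = (starRingEnd ℂ) (ψ (a * z ^ 2)) := by
      intro z; rw [neg_mul, hneg]
    simp only [this]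
    rw [← map_sum, hga, Complex.conj_ofReal]
  rw [hg1, hc, hz, mul_zero] at h
  have : r1 + r2 = 0 := by exact_mod_cast h
  linarith

open scoped Classical in
theorem t_REC : S_REC := by
  intro hM α π hα hπ hp h
  have hπ0 : π ≠ 0 := hp.ne_zero
  have np : nm π ≠ 0 := (nm_pos hπ).ne'
  have npR : ((nm π : ℤ) : ℝ) ≠ 0 := by exact_mod_cast np
  haveI hfin := fin_quot hπ0
  haveI hft := Fintype.ofFinite (R4 ⧸ Ideal.span {π})
  haveI hpr : (Ideal.span {π}).IsPrime := (Ideal.span_singleton_prime hπ0).2 hp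
  haveI hdom : IsDomain (R4 ⧸ Ideal.span {π}) := Ideal.Quotient.isDomain _
  letI hfield : Field (R4 ⧸ Ideal.span {π}) := (Finite.isField_of_domain _).toField
  let mk : R4 →+* R4 ⧸ Ideal.span {π} := Ideal.Quotient.mk (Ideal.span {π})
  have hmk0 : ∀ x : R4, mk x = 0 ↔ π ∣ x := by
    intro x
    rw [← Ideal.mem_span_singleton]
    exact Ideal.Quotient.eq_zero_iff_mem
  have hmksurj : Function.Surjective mk := Ideal.Quotient.mk_surjective
  let s : (R4 ⧸ Ideal.span {π}) → R4 := Function.surjInv hmksurj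
  have hs : ∀ q, mk (s q) = q := Function.surjInv_eq hmksurj
  -- the additive character
  let φ : R4 → ℂ := fun w => e ((((w * adj π).a : ℤ) : ℝ) / ((nm π : ℤ) : ℝ))
  have φadd : ∀ x y, φ (x + y) = φ x * φ y := by
    intro x y
    show e _ = e _ * e _
    rw [← e_add, add_mul, add_a]
    congr 1
    push_cast
    ring
  have φneg : ∀ x, φ (-x) = (starRingEnd ℂ) (φ x) := by
    intro x
    show e _ = (starRingEnd ℂ) (e _)
    rw [← e_neg, neg_mul, neg_a]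
    congr 1
    push_cast
    ring
  have φπ : ∀ v, φ (π * v) = 1 := by
    intro v
    show e _ = 1
    rw [e_one_iff]
    refine ⟨v.a, ?_⟩
    have : π * v * adj π = ((nm π : ℤ) : R4) * v := by rw [← mul_adj]; ring
    rw [this, int_mul_a]
    push_cast
    field_simp
  have φcongr : ∀ x y, mk x = mk y → φ x = φ y := by
    intro x y hxy
    have : mk (x - y) = 0 := by rw [map_sub, hxy, sub_self]
    obtain ⟨v, hv⟩ := (hmk0 _).1 this
    have : x = π * v + y := by rw [← hv]; ring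
    rw [this, φadd, φπ, one_mul]
  let ψ : (R4 ⧸ Ideal.span {π}) → ℂ := fun q => φ (s q)
  have ψmk : ∀ x, ψ (mk x) = φ x := fun x => φcongr _ _ (hs _)
  have ψadd : ∀ x y, ψ (x + y) = ψ x * ψ y := by
    intro x y
    obtain ⟨x, rfl⟩ := hmksurj x
    obtain ⟨y, rfl⟩ := hmksurj y
    rw [← map_add, ψmk, ψmk, ψmk, φadd]
  have ψneg : ∀ x, ψ (-x) = (starRingEnd ℂ) (ψ x) := by
    intro x
    obtain ⟨x, rfl⟩ := hmksurj x
    rw [← map_neg, ψmk, ψmk, φneg]
  have ψnt : ∃ x, ψ x ≠ 1 := by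
    by_contra hcon
    push Not at hcon
    have h1 : ∀ w : R4, ∃ n : ℤ, (w * adj π).a = nm π * n := by
      intro w
      have h2 := hcon (mk w)
      rw [ψmk] at h2
      obtain ⟨n, hn⟩ := (e_one_iff _).1 h2
      refine ⟨n, ?_⟩
      rw [div_eq_iff npR] at hn
      have h3 : (((w * adj π).a : ℤ) : ℝ) = ((nm π * n : ℤ) : ℝ) := by rw [hn]; push_cast; ring
      exact_mod_cast h3
    obtain ⟨n1, hn1⟩ := h1 1
    obtain ⟨n2, hn2⟩ := h1 ⟨0, 1, 0, 0⟩
    obtain ⟨n3, hn3⟩ := h1 ⟨0, 0, 1, 0⟩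
    obtain ⟨n4, hn4⟩ := h1 ⟨0, 0, 0, 1⟩
    simp only [mul_a, one_mul, zero_mul, add_zero, zero_add] at hn1 hn2 hn3 hn4
    have h5 : adj π = ((nm π : ℤ) : R4) * ⟨n1, n2, n3, n4⟩ := by
      ext
      · simp only [mul_a, intCast_a, intCast_b, intCast_c, intCast_d]; linarith
      · simp only [mul_b, intCast_a, intCast_b, intCast_c, intCast_d]; linarith
      · simp only [mul_c, intCast_a, intCast_b, intCast_c, intCast_d]; linarith
      · simp only [mul_d, intCast_a, intCast_b, intCast_c, intCast_d]; linarith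
    have h6 : ((nm π : ℤ) : R4) * (π * ⟨n1, n2, n3, n4⟩) = ((nm π : ℤ) : R4) * 1 := by
      rw [mul_one]
      conv_rhs => rw [← mul_adj, h5]
      ring
    have h7 : ((nm π : ℤ) : R4) ≠ 0 := by
      intro h0
      have := congrArg R4.a h0
      rw [intCast_a] at this
      exact np this
    have h8 := mul_left_cancel₀ h7 h6
    exact hp.not_isUnit (IsUnit.of_mul_eq_one _ h8)
  -- characteristic
  have hchar : ringChar (R4 ⧸ Ideal.span {π}) ≠ 2 := by
    intro h2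
    have h3 : ((2 : ℕ) : R4 ⧸ Ideal.span {π}) = 0 := by
      rw [← h2]; exact ringChar.Nat.cast_ringChar
    have h4 : mk (2 : R4) = 0 := by
      have : mk (2 : R4) = ((2 : ℕ) : R4 ⧸ Ideal.span {π}) := by
        rw [map_ofNat]; norm_cast
      rw [this]; exact h3
    have h5 : π ∣ 2 := (hmk0 _).1 h4
    obtain ⟨k, hk⟩ := h
    have h6 : π ∣ 1 := by
      have : (1 : R4) = 2 * (2 * α * k) - π := by linear_combination hk
      rw [this]
      exact dvd_sub (h5.mul_right _) (dvd_refl _)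
    exact hp.not_isUnit (isUnit_of_dvd_one h6)
  -- the residue system
  have hT2 : CRS π (Finset.univ.image s) := by
    intro z
    refine ⟨s (mk z), ⟨Finset.mem_image_of_mem _ (Finset.mem_univ _), ?_⟩, ?_⟩
    · rw [← hmk0, map_sub, hs, sub_self]
    · rintro t ⟨ht, hd⟩
      obtain ⟨q, -, rfl⟩ := Finset.mem_image.1 ht
      rw [← hmk0, map_sub, hs, sub_eq_zero] at hd
      rw [hd]
  have sinj : Function.Injective s := Function.injective_surjInv hmksurj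
  have hsum : ∀ u : R4, ∑ t ∈ Finset.univ.image s, e ((((u * t ^ 2 * adj π).a : ℤ) : ℝ) /
      ((nm π : ℤ) : ℝ)) = ∑ z : R4 ⧸ Ideal.span {π}, ψ (mk u * z ^ 2) := by
    intro u
    rw [Finset.sum_image (fun x _ y _ hxy => sinj hxy)]
    refine Finset.sum_congr rfl fun q _ => ?_
    have : mk u * q ^ 2 = mk (u * s q ^ 2) := by rw [map_mul, map_pow, hs]
    rw [this, ψmk]
  obtain ⟨r2, hr2, hg2⟩ := gauss_pos hM hα hπ h hT2
  obtain ⟨r1, hr1, hg1⟩ := gauss_pos hM pos_one hπ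
    (by rw [mul_one]; exact (dvd_mul_right 4 α).trans h) hT2
  rw [hsum] at hg1 hg2
  simp only [map_one, one_mul] at hg1
  have hsq := isSquare_of_gauss hchar ψ ψadd ψneg ψnt (mk α) r1 r2 hr1 hr2 hg1 hg2
  obtain ⟨q, hq⟩ := hsq
  have hα1 : mk α ≠ 0 := by
    intro h0
    have h5 : π ∣ α := (hmk0 _).1 h0
    obtain ⟨k, hk⟩ := h
    have h6 : π ∣ 1 := by
      have : (1 : R4) = α * (4 * k) - π := by linear_combination hk
      rw [this]
      exact dvd_sub (h5.mul_right _) (dvd_refl _)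
    exact hp.not_isUnit (isUnit_of_dvd_one h6)
  have hq0 : q ≠ 0 := by
    rintro rfl
    rw [mul_zero, neg_eq_zero] at hq
    exact hα1 hq
  obtain ⟨B, hB⟩ := hmksurj q⁻¹
  refine ⟨B, ?_⟩
  rw [← hmk0, map_add, map_mul, map_pow, map_one, hB]
  have h9 : mk α = -(q * q) := by rw [← hq, neg_neg]
  rw [h9]
  field_simp
  ring

end Pool.Agent.U49.UF.REC
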